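import Pool.Agent.H27.L1.H34.GZZ.Targets

/-!
Definitions of the board ghk (MP_52e316_nt): the hybrid fourth moment over representations: translates,
matrix coefficients, flags.
-/

set_option autoImplicit false

namespace Pool.Agent.H27.L1.H68.GHK

open MeasureTheory Pool.Agent.H27.L1.H34.GM Pool.Agent.H27.L1.H34.GZ Pool.Agent.H27.L1.H34.GU Pool.Agent.H27.L1.H34.GA

/-- the right translate of `F` by `u` -/
def rt {m N : ℕ} (u : Mat m) (F : Mat m → VN m N → ℂ) : Mat m → VN m N → ℂ :=
  fun g x => F (g * u) x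

/-- the scalar product in `L²(D × vectors)` -/
noncomputable def ip {m N : ℕ} [NeZero N] (D : Set (V m)) (F G : Mat m → VN m N → ℂ) : ℂ :=
  ∑ x, ∫ z in D, F (mt z) x * (starRingEnd ℂ) (G (mt z) x) ∂(hm m)

/-- the neighbourhood of `1` -/
def Bn (m : ℕ) (r : ℝ) : Set (V m) := {u | sz (mt u - 1) ≤ r}

/-- the mean of the square of the matrix coefficient near `1` (Lebesgue measure) -/
noncomputable def Hn {m N : ℕ} [NeZero N] (r : ℝ) (D : Set (V m)) (F : Mat m → VN m N → ℂ) : ℝ :=
  ∫ u in Bn m r, ‖ip D (rt (mt u) F) F‖ ^ 2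

/-- forms of norm `1` which generate mutually orthogonal spaces -/
structure OrS {m N : ℕ} [NeZero N] {ι : Type} (D : Set (V m)) (F : ι → Mat m → VN m N → ℂ) :
    Prop where
  one : ∀ i, nU D (F i) = 1
  orth : ∀ i j, i ≠ j → ∀ u : Mat m, u.det ≠ 0 → ip D (rt u (F i)) (F j) = 0

/-! ### flags -/

/-- the orthogonal projection to the span of the first `j` columns of `w` -/
noncomputable def EP {m : ℕ} (j : ℕ) (w : Mat m) : Mat m :=
  if h : j ≤ m then
    (w.submatrix id (Fin.castLE h)) *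
      ((w.submatrix id (Fin.castLE h)).transpose * (w.submatrix id (Fin.castLE h)))⁻¹ *
      (w.submatrix id (Fin.castLE h)).transpose
  else 1

/-- orthogonal projections -/
structure Prj {m : ℕ} (E : Mat m) : Prop where
  sym : E.transpose = E
  idem : E * E = E

/-- `log det (E zᵀ z E + 1 - E)` -/
noncomputable def FE {m : ℕ} (E : Mat m) (z : V m) : ℝ :=
  Real.log (E * ((mt z).transpose * mt z) * E + 1 - E).det

/-- half of the gaps of the imaginary parts -/
noncomputable def bt {m : ℕ} (mu : Fin m → ℂ) (j : ℕ) : ℝ :=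
  if h : 1 ≤ j ∧ j < m then ((mu ⟨j, h.2⟩).im - (mu ⟨j - 1, by omega⟩).im) / 2 else 0

/-- the distance of the flags of `w` and `w'` at the scale of the parameters -/
noncomputable def Gg {m : ℕ} (mu : Fin m → ℂ) (w w' : Mat m) : ℝ :=
  ∑ j ∈ Finset.range m, bt mu j * sz (EP j w - EP j w')

/-- the Plancherel density -/
noncomputable def Wt {m : ℕ} (mu : Fin m → ℂ) : ℝ :=
  ∏ i : Fin m, ∏ j : Fin m, if i < j then 1 + |(mu j).im - (mu i).im| else 1

/-- densities near the orthogonal group, invariant from the left -/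
structure Kap (m : ℕ) (κ : Mat m → ℝ) : Prop where
  cont : Continuous (fun w : V m => κ (mt w))
  nn : ∀ w, 0 ≤ κ w
  inv : ∀ k : Mat m, k * k.transpose = 1 → ∀ w, κ (k * w) = κ w
  supp : ∀ w, κ w ≠ 0 → sz (w.transpose * w - 1) ≤ 1 / (4 * m)
  one : ∫ w : V m, κ (mt w) = 1

end Pool.Agent.H27.L1.H68.GHK
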